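import Pool.Agent.H56.BoardLine

/-!
# Lines of two slope classes meeting all cells of an `n × n` board

The slopes are split into four octants: steep descending (slope at most -1, or vertical),
flat descending (slope in `[-1, 0]`), flat ascending (slope in `[0, 1]`) and steep ascending
(slope at least 1, or vertical). If every line of the family lies in one of two of these octants
and every cell is met, there are at least `n - 1` lines; at least `(n - k)²` cells are missed by
`k` lines unless the two octants are opposite.
-/

namespace Pool.Agent.Results.MP_bfe9d9_co.TwoClasses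

open Pool.H56.Board

/-- The four slope octants. -/
inductive Octant
  | steepDown
  | flatDown
  | flatUp
  | steepUp

/-- The line `a x + b y = c` has its slope `-a/b` in the given closed octant. -/
def InOctant (l : Line) : Octant → Prop
  | .steepDown => 0 ≤ l.a * l.b ∧ |l.b| ≤ |l.a|
  | .flatDown => 0 ≤ l.a * l.b ∧ |l.a| ≤ |l.b|
  | .flatUp => l.a * l.b ≤ 0 ∧ |l.a| ≤ |l.b|
  | .steepUp => l.a * l.b ≤ 0 ∧ |l.b| ≤ |l.a|

/-- The two octants that are opposite to each other are mapped to each other by a rotation through
a right angle: steep descending and flat ascending, or flat descending and steep ascending. -/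
def Opposite : Octant → Octant → Prop
  | .steepDown, .flatUp => True
  | .flatUp, .steepDown => True
  | .flatDown, .steepUp => True
  | .steepUp, .flatDown => True
  | _, _ => False

theorem result (n k : ℕ) (L : Fin k → Line) (C D : Octant)
    (hL : ∀ t, InOctant (L t) C ∨ InOctant (L t) D) :
    ((∀ i j : ℕ, i < n → j < n → ∃ t, (L t).Meets i j) → n ≤ k + 1) ∧
      (¬ Opposite C D → (n - k) ^ 2 ≤ (missedCells n L).ncard) := by
  -- the two kinds of conclusion
  have hcov : ∀ (_ : (n - k) ^ 2 ≤ (missedCells n L).ncard),
      (∀ i j : ℕ, i < n → j < n → ∃ t, (L t).Meets i j) → n ≤ k + 1 := by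
    intro h1 h2
    have h3 : missedCells n L = ∅ := by
      ext ⟨i, j⟩
      simp only [missedCells, Set.mem_ofPred_eq, Set.mem_empty_iff_false, iff_false]
      rintro ⟨hi, hj, hm⟩
      obtain ⟨t, ht⟩ := h2 i j hi hj
      exact hm t ht
    rw [h3, Set.ncard_empty] at h1
    have h4 : n - k = 0 := by
      rcases Nat.eq_zero_or_pos (n - k) with h | h
      · exact h
      · have : 0 < (n - k) ^ 2 := by positivity
        omega
    omega
  have hopp : ∀ (_ : ∃ i j : ℕ, i ≤ k + 1 ∧ j ≤ k + 1 ∧ ∀ t, ¬ (L t).Meets i j),
      (∀ i j : ℕ, i < n → j < n → ∃ t, (L t).Meets i j) → n ≤ k + 1 := by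
    rintro ⟨i, j, hi, hj, hm⟩ h2
    by_contra hc
    obtain ⟨t, ht⟩ := h2 i j (by omega) (by omega)
    exact hm t ht
  have hsf : (∀ t, (0 ≤ (L t).a * (L t).b ∧ |(L t).b| ≤ |(L t).a|) ∨
      ((L t).a * (L t).b ≤ 0 ∧ |(L t).a| ≤ |(L t).b|)) →
      ∃ i j : ℕ, i ≤ k + 1 ∧ j ≤ k + 1 ∧ ∀ t, ¬ (L t).Meets i j := opp_missed L
  have hfs : (∀ t, (0 ≤ (L t).a * (L t).b ∧ |(L t).a| ≤ |(L t).b|) ∨
      ((L t).a * (L t).b ≤ 0 ∧ |(L t).b| ≤ |(L t).a|)) →
      ∃ i j : ℕ, i ≤ k + 1 ∧ j ≤ k + 1 ∧ ∀ t, ¬ (L t).Meets i j := by
    intro h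
    obtain ⟨i, j, hi, hj, hm⟩ := opp_missed (fun t => (L t).tr) (fun t => by
      simp only [Line.tr]
      rw [mul_comm]
      exact h t)
    exact ⟨j, i, hj, hi, fun t ht => hm t (((L t).tr_meets j i).2 ht)⟩
  cases C <;> cases D <;> simp only [InOctant, Opposite] at hL ⊢
  · have := card_desc L n fun t => by rcases hL t with h | h <;> exact h.1
    exact ⟨hcov this, fun _ => this⟩
  · have := card_desc L n fun t => by rcases hL t with h | h <;> exact h.1
    exact ⟨hcov this, fun _ => this⟩
  · exact ⟨hopp (hsf hL), fun h => absurd trivial h⟩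
  · have := card_steep L n fun t => by rcases hL t with h | h <;> exact h.2
    exact ⟨hcov this, fun _ => this⟩
  · have := card_desc L n fun t => by rcases hL t with h | h <;> exact h.1
    exact ⟨hcov this, fun _ => this⟩
  · have := card_desc L n fun t => by rcases hL t with h | h <;> exact h.1
    exact ⟨hcov this, fun _ => this⟩
  · have := card_flat L n fun t => by rcases hL t with h | h <;> exact h.2
    exact ⟨hcov this, fun _ => this⟩
  · exact ⟨hopp (hfs hL), fun h => absurd trivial h⟩
  · exact ⟨hopp (hsf fun t => (hL t).symm), fun h => absurd trivial h⟩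
  · have := card_flat L n fun t => by rcases hL t with h | h <;> exact h.2
    exact ⟨hcov this, fun _ => this⟩
  · have := card_asc L n fun t => by rcases hL t with h | h <;> exact h.1
    exact ⟨hcov this, fun _ => this⟩
  · have := card_asc L n fun t => by rcases hL t with h | h <;> exact h.1
    exact ⟨hcov this, fun _ => this⟩
  · have := card_steep L n fun t => by rcases hL t with h | h <;> exact h.2
    exact ⟨hcov this, fun _ => this⟩
  · exact ⟨hopp (hfs fun t => (hL t).symm), fun h => absurd trivial h⟩
  · have := card_asc L n fun t => by rcases hL t with h | h <;> exact h.1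
    exact ⟨hcov this, fun _ => this⟩
  · have := card_asc L n fun t => by rcases hL t with h | h <;> exact h.1
    exact ⟨hcov this, fun _ => this⟩

end Pool.Agent.Results.MP_bfe9d9_co.TwoClasses
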